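import Pool.Agent.L7h34.PG.Stm

set_option autoImplicit false

/-! # Project PG, part COL -/

namespace Pool.Agent.L7h2.PG

open Pool.Agent.L7h34.PG

theorem s_COL : S_COL := by
  refine ⟨⟨fun x => Int.cast (R := ZMod 2) (id x.1 : ZMod 0), fun s => ?_⟩, ?_⟩
  · exact (Int.cast_add (R := ZMod 2) s.1 1).trans (by rw [Int.cast_one]; rfl)
  · rintro N hN ⟨ε, hε⟩
    have h : ∀ n : ℕ, ε ((n : ZMod N), 0) = ε (0, 0) + n := by
      intro n
      induction n with
      | zero => simp
      | succ n ih =>
        have h1 := hε ((n : ZMod N), 0)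
        have h2 : cyc N ((n : ZMod N), 0) = (((n + 1 : ℕ) : ZMod N), 0) := by
          rw [Nat.cast_succ]
          rfl
        rw [h2] at h1
        rw [h1, ih]
        push_cast
        ring
    have h1 := h N
    rw [ZMod.natCast_self] at h1
    have h2 : (N : ZMod 2) = 0 := by
      have := h1.symm
      rwa [add_eq_left] at this
    rw [ZMod.natCast_eq_zero_iff] at h2
    exact (Nat.not_even_iff_odd.2 hN) (even_iff_two_dvd.2 h2)

end Pool.Agent.L7h2.PG
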