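import Pool.Agent.L7h34.PG.Stm

set_option autoImplicit false

/-! # Project PG, part EXT -/

namespace Pool.Agent.L7h2.PG

open Pool.Agent.L7h34.PG

theorem cyc_one (N : ℕ) (x : ZMod N × ℕ) : cyc N x = (x.1 + 1, x.2) := rfl

theorem cyc_pow (N : ℕ) (d : ℤ) (x : ZMod N × ℕ) : ((cyc N) ^ d) x = (x.1 + d, x.2) := by
  induction d using Int.induction_on with
  | zero => simp
  | succ i hi =>
    rw [add_comm, zpow_add, zpow_one, Equiv.Perm.mul_apply, hi, cyc_one]
    push_cast
    ext
    · simp only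
      ring
    · rfl
  | pred i hi =>
    rw [sub_eq_add_neg, add_comm, zpow_add, zpow_neg_one, Equiv.Perm.mul_apply, hi,
      Equiv.Perm.inv_eq_iff_eq, cyc_one]
    push_cast
    ext
    · simp only
      ring
    · rfl

theorem fix_iff (N r : ℕ) (hN : Big N r) (d : ℤ) (hd : |d| ≤ r) (t : ZMod N × ℕ) :
    t = ((cyc N) ^ d) t ↔ d = 0 := by
  rw [cyc_pow]
  constructor
  · intro h
    have h1 := congrArg Prod.fst h
    simp only at h1
    have h2 : (d : ZMod N) = 0 := by
      have := h1.symm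
      rwa [add_eq_left] at this
    rw [ZMod.intCast_zmod_eq_zero_iff_dvd] at h2
    rcases hN with rfl | hN
    · simpa using h2
    · apply Int.eq_zero_of_abs_lt_dvd h2
      exact hd.trans_lt (by exact_mod_cast hN)
  · rintro rfl
    simp

theorem swap_iff {S : Type} (σ : Equiv.Perm S) (d : ℤ) (a b : S) : a = (σ ^ d) b ↔ b = (σ ^ (-d)) a := by
  rw [zpow_neg, eq_comm, Equiv.Perm.eq_inv_iff_eq]

theorem s_EXT : S_EXT := by
  classical
  intro N N' r hN hN' n s s' h t
  by_cases hex : ∃ (i : Fin n) (d : ℤ), |d| ≤ r ∧ t = ((cyc N) ^ d) (s i)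
  · obtain ⟨i₀, d₀, hd₀, rfl⟩ := hex
    refine ⟨((cyc N') ^ d₀) (s' i₀), ?_⟩
    have key : ∀ (j : Fin n) (d : ℤ), |d| ≤ r →
        (s j = ((cyc N) ^ d) (((cyc N) ^ d₀) (s i₀)) ↔ s' j = ((cyc N') ^ d) (((cyc N') ^ d₀) (s' i₀))) := by
      intro j d hd
      rw [← Equiv.Perm.mul_apply, ← zpow_add, ← Equiv.Perm.mul_apply, ← zpow_add]
      apply h
      have := abs_add_le d d₀
      push_cast
      linarith
    intro i j d hd
    refine Fin.lastCases ?_ (fun i => ?_) i
    · refine Fin.lastCases ?_ (fun j => ?_) j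
      · simp only [Fin.snoc_last]
        rw [fix_iff N r hN d hd, fix_iff N' r hN' d hd]
      · simp only [Fin.snoc_last, Fin.snoc_castSucc]
        exact key j d hd
    · refine Fin.lastCases ?_ (fun j => ?_) j
      · simp only [Fin.snoc_last, Fin.snoc_castSucc]
        rw [swap_iff, swap_iff (cyc N')]
        exact key i (-d) (by rwa [abs_neg])
      · simp only [Fin.snoc_castSucc]
        exact h i j d (hd.trans (by push_cast; linarith [abs_nonneg d]))
  · push Not at hex
    obtain ⟨k, hk⟩ : ∃ k : ℕ, ∀ i, (s' i).2 ≠ k := by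
      obtain ⟨k, hk⟩ := Infinite.exists_notMem_finset (Finset.univ.image fun i => (s' i).2)
      exact ⟨k, fun i hi => hk (Finset.mem_image.2 ⟨i, Finset.mem_univ _, hi⟩)⟩
    refine ⟨(0, k), ?_⟩
    have hex' : ∀ (i : Fin n) (d : ℤ), |d| ≤ r → ((0, k) : ZMod N' × ℕ) ≠ ((cyc N') ^ d) (s' i) := by
      intro i d _ h1
      rw [cyc_pow] at h1
      exact hk i (congrArg Prod.snd h1).symm
    intro i j d hd
    refine Fin.lastCases ?_ (fun i => ?_) i
    · refine Fin.lastCases ?_ (fun j => ?_) j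
      · simp only [Fin.snoc_last]
        rw [fix_iff N r hN d hd, fix_iff N' r hN' d hd]
      · simp only [Fin.snoc_last, Fin.snoc_castSucc]
        rw [swap_iff, swap_iff (cyc N')]
        exact iff_of_false (hex j (-d) (by rwa [abs_neg])) (hex' j (-d) (by rwa [abs_neg]))
    · refine Fin.lastCases ?_ (fun j => ?_) j
      · simp only [Fin.snoc_last, Fin.snoc_castSucc]
        exact iff_of_false (hex i d hd) (hex' i d hd)
      · simp only [Fin.snoc_castSucc]
        exact h i j d (hd.trans (by push_cast; linarith [abs_nonneg d]))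

end Pool.Agent.L7h2.PG
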