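import Pool.Agent.L7h34.PG.Stm

set_option autoImplicit false

/-! # Project PG, part GB3 -/

namespace Pool.Agent.L7h2.PG

open Pool.Agent.L7h34.PG

theorem s_GB3 : S_GB3 := by
  refine ⟨?_, ?_, ?_⟩
  · intro k k' k'' e e' hk t h
    have h1 := h ⟨1, 0, false⟩
    have h2 := h ⟨0, 1, false⟩
    clear h
    obtain ⟨x, y, s⟩ := t
    revert h1 h2 hk
    revert x y s e e'
    cases k <;> cases k' <;> cases k'' <;> decide
  · rintro ⟨x, y, s⟩ ⟨x', y', s'⟩
    cases s <;> cases s' <;> decide +revert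
  · rintro k e ⟨x, y, s⟩
    revert x y s e
    cases k <;> decide

end Pool.Agent.L7h2.PG
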